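import Pool.Agent.Q286.BD.Spec

set_option autoImplicit false

/-! Project BD (helper286), job P1 (helper153): the Perron formula to the right of 1. -/

namespace Pool.Agent.Q153.BD

open Complex MeasureTheory Filter Topology Set
open Pool.Agent.Q286.BD

noncomputable section

variable {β : ℝ} {φ : ℝ → ℝ}

theorem phi_supp (h : Wt β φ) : HasCompactSupport φ := by
  obtain ⟨ε, _, hs⟩ := h.supp
  refine HasCompactSupport.intro (isCompact_Icc (a := ε) (b := 1)) fun u hu => ?_
  by_contra h0
  exact hu ⟨(hs u h0).1, (hs u h0).2⟩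

theorem phi_int (h : Wt β φ) : Integrable φ := h.cont.integrable_of_hasCompactSupport (phi_supp h)

theorem phi_zero (h : Wt β φ) {u : ℝ} (hu : 1 < u) : φ u = 0 := by
  obtain ⟨ε, _, hs⟩ := h.supp
  by_contra h0
  exact absurd (hs u h0).2 (not_le.mpr hu)

theorem V_zero (h : Wt β φ) {u : ℝ} (hu : 1 ≤ u) : V φ u = 0 := by
  unfold V
  refine setIntegral_eq_zero_of_forall_eq_zero fun v hv => phi_zero h ?_
  exact lt_of_le_of_lt hu hv

theorem V_cont (h : Wt β φ) : Continuous (V φ) := by
  have e : V φ = fun u => V φ 0 - ∫ v in (0 : ℝ)..u, φ v := by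
    funext u
    have := intervalIntegral.integral_interval_add_Ioi (a := 0) (b := u) (μ := volume)
      (phi_int h).integrableOn (phi_int h).integrableOn
    unfold V
    linarith
  rw [e]
  exact continuous_const.sub
    (intervalIntegral.continuous_primitive (fun a b => (phi_int h).intervalIntegrable) 0)

theorem V_bd (h : Wt β φ) (u : ℝ) : |V φ u| ≤ ∫ v, |φ v| := by
  unfold V
  rw [← Real.norm_eq_abs]
  refine (norm_integral_le_integral_norm _).trans ?_
  simp only [Real.norm_eq_abs]
  exact setIntegral_le_integral (phi_int h).abs (Eventually.of_forall fun v => abs_nonneg _)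

/-- the Laplace transform of V -/
theorem lap_V (h : Wt β φ) {z : ℂ} (hz : 0 < z.re) :
    ∫ u : ℝ, cexp (z * u) * ((V φ u : ℝ) : ℂ) = Lap φ z / z := by
  -- the function of two variables
  set F : ℝ → ℝ → ℂ := fun u v => {p : ℝ × ℝ | p.1 < p.2}.indicator
    (fun p => cexp (z * p.1) * ((φ p.2 : ℝ) : ℂ)) (u, v) with hF
  have hFv : ∀ u v, F u v = (Iio v).indicator (fun u : ℝ => cexp (z * u)) u * ((φ v : ℝ) : ℂ) := by
    intro u v
    simp only [hF]
    by_cases huv : u < v
    · rw [indicator_of_mem (show (u, v) ∈ {p : ℝ × ℝ | p.1 < p.2} from huv),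
        indicator_of_mem (show u ∈ Iio v from huv)]
    · rw [indicator_of_notMem (show (u, v) ∉ {p : ℝ × ℝ | p.1 < p.2} from huv),
        indicator_of_notMem (show u ∉ Iio v from huv), zero_mul]
  have hFu : ∀ u v, F u v = cexp (z * u) * (Ioi u).indicator (fun v : ℝ => ((φ v : ℝ) : ℂ)) v := by
    intro u v
    simp only [hF]
    by_cases huv : u < v
    · rw [indicator_of_mem (show (u, v) ∈ {p : ℝ × ℝ | p.1 < p.2} from huv),
        indicator_of_mem (show v ∈ Ioi u from huv)]
    · rw [indicator_of_notMem (show (u, v) ∉ {p : ℝ × ℝ | p.1 < p.2} from huv),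
        indicator_of_notMem (show v ∉ Ioi u from huv), mul_zero]
  have hexp : ∀ v : ℝ, IntegrableOn (fun u : ℝ => cexp (z * u)) (Iio v) := by
    intro v
    refine IntegrableOn.mono_set ?_ Iio_subset_Iic_self
    exact integrableOn_exp_mul_complex_Iic hz v
  have hmeas : AEStronglyMeasurable (Function.uncurry F) (volume.prod volume) := by
    have : Function.uncurry F = {p : ℝ × ℝ | p.1 < p.2}.indicator
        (fun p => cexp (z * p.1) * ((φ p.2 : ℝ) : ℂ)) := by
      funext p
      rfl
    rw [this]
    refine AEStronglyMeasurable.indicator ?_ (measurableSet_lt measurable_fst measurable_snd)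
    refine Continuous.aestronglyMeasurable ?_
    exact (Complex.continuous_exp.comp (continuous_const.mul
      (Complex.continuous_ofReal.comp continuous_fst))).mul
      (Complex.continuous_ofReal.comp (h.cont.comp continuous_snd))
  have hnorm : ∀ v : ℝ, ∫ u : ℝ, ‖F u v‖ = |φ v| * (Real.exp (z.re * v) / z.re) := by
    intro v
    have e1 : ∀ u : ℝ, ‖F u v‖ = (Iio v).indicator (fun u : ℝ => Real.exp (z.re * u)) u * |φ v| := by
      intro u
      rw [hFv, norm_mul, Complex.norm_real, Real.norm_eq_abs]
      congr 1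
      by_cases huv : u ∈ Iio v
      · rw [indicator_of_mem huv, indicator_of_mem huv, Complex.norm_exp]
        simp
      · rw [indicator_of_notMem huv, indicator_of_notMem huv, norm_zero]
    simp only [e1]
    rw [integral_mul_const, integral_indicator measurableSet_Iio, ← integral_Iic_eq_integral_Iio,
      integral_exp_mul_Iic hz]
    ring
  have hprod : Integrable (Function.uncurry F) (volume.prod volume) := by
    rw [integrable_prod_iff' hmeas]
    constructor
    · refine Eventually.of_forall fun v => ?_
      simp only [Function.uncurry, hFv]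
      refine Integrable.mul_const ?_ _
      rw [integrable_indicator_iff measurableSet_Iio]
      exact hexp v
    · simp only [Function.uncurry, hnorm]
      refine Continuous.integrable_of_hasCompactSupport ?_ ?_
      · exact h.cont.abs.mul ((Real.continuous_exp.comp (continuous_const.mul continuous_id)).div_const _)
      · exact HasCompactSupport.mul_right (phi_supp h).abs
  have hswap := integral_integral_swap hprod
  have eL : ∀ u : ℝ, ∫ v : ℝ, F u v = cexp (z * u) * ((V φ u : ℝ) : ℂ) := by
    intro u
    simp only [hFu]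
    rw [integral_const_mul, integral_indicator measurableSet_Ioi]
    unfold V
    rw [integral_complex_ofReal]
  have eR : ∀ v : ℝ, ∫ u : ℝ, F u v = ((φ v : ℝ) : ℂ) * cexp (z * v) / z := by
    intro v
    simp only [hFv]
    rw [integral_mul_const, integral_indicator measurableSet_Iio, ← integral_Iic_eq_integral_Iio,
      integral_exp_mul_complex_Iic hz]
    ring
  simp only [eL, eR] at hswap
  rw [hswap]
  unfold Lap
  rw [integral_div]

/-- the Mellin transform of V composed with the logarithm -/
theorem mellin_V (h : Wt β φ) {z : ℂ} (hz : 0 < z.re) :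
    mellin (fun x : ℝ => ((V φ (Real.log x) : ℝ) : ℂ)) z = Lap φ z / z := by
  rw [mellin_eq_fourier, Real.fourier_eq', ← lap_V h hz, ← integral_neg_eq_self]
  refine integral_congr_ae (Eventually.of_forall fun u => ?_)
  simp only
  rw [neg_neg, Real.log_exp, smul_eq_mul, Complex.real_smul, ← mul_assoc]
  congr 1
  rw [Complex.ofReal_exp, ← Complex.exp_add]
  congr 1
  have hpi : (Real.pi : ℂ) ≠ 0 := by exact_mod_cast Real.pi_ne_zero
  have e : inner ℝ (-u) (z.im / (2 * Real.pi)) = -u * (z.im / (2 * Real.pi)) := by
    simp [mul_comm]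
  rw [e]
  have hz' : z = z.re + z.im * I := (Complex.re_add_im z).symm
  rw [hz']
  push_cast
  simp only [Complex.add_re, Complex.ofReal_re, Complex.mul_re, Complex.I_re, mul_zero,
    Complex.ofReal_im, Complex.I_im, mul_one, sub_self, add_zero, Complex.add_im, Complex.mul_im,
    zero_add]
  field_simp
  ring

theorem lap_cont (h : Wt β φ) (a : ℝ) : Continuous (fun y : ℝ => Lap φ (a + y * I)) := by
  unfold Lap
  refine continuous_of_dominated (bound := fun u => |φ u| * Real.exp (a * u)) ?_ ?_ ?_ ?_
  · intro y
    refine Continuous.aestronglyMeasurable ?_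
    exact (Complex.continuous_ofReal.comp h.cont).mul (Complex.continuous_exp.comp
      (continuous_const.mul Complex.continuous_ofReal))
  · intro y
    refine Eventually.of_forall fun u => ?_
    rw [norm_mul, Complex.norm_real, Real.norm_eq_abs, Complex.norm_exp]
    simp
  · refine Continuous.integrable_of_hasCompactSupport ?_ ?_
    · exact h.cont.abs.mul (Real.continuous_exp.comp (continuous_const.mul continuous_id))
    · exact HasCompactSupport.mul_right (phi_supp h).abs
  · refine Eventually.of_forall fun u => ?_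
    fun_prop

theorem exp_int {c : ℝ} (hc : 0 < c) (hβ : 0 < β) : Integrable fun y : ℝ => Real.exp (-c * |y| ^ β) := by
  refine Integrable.of_integral_ne_zero ?_
  rw [integral_comp_abs (f := fun y : ℝ => Real.exp (-c * y ^ β)), integral_exp_neg_mul_rpow hβ hc]
  have := Real.Gamma_pos_of_pos (show 0 < 1 / β + 1 by positivity)
  positivity

theorem G_int (hβ : 0 < β) (h : Wt β φ) {a : ℝ} (ha : 0 < a) :
    Integrable fun y : ℝ => Lap φ (a + y * I) / (a + y * I) := by
  obtain ⟨ε, C, c, hε, hC, hc, hd⟩ := h.dec
  have hne : ∀ y : ℝ, (a + y * I : ℂ) ≠ 0 := by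
    intro y h0
    have := congrArg Complex.re h0
    simp at this
    exact ha.ne' this
  refine ((exp_int hc hβ).const_mul (C * Real.exp a / a)).mono' ?_ ?_
  · refine Continuous.aestronglyMeasurable ?_
    exact (lap_cont h a).div (by fun_prop) hne
  · refine Eventually.of_forall fun y => ?_
    rw [norm_div]
    have h1 := hd (a + y * I)
    have e1 : (a + y * I : ℂ).re = a := by simp
    have e2 : (a + y * I : ℂ).im = y := by simp
    rw [e1, e2, max_eq_left ha.le, max_eq_right (by linarith), mul_zero, sub_zero] at h1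
    have h2 : a ≤ ‖(a + y * I : ℂ)‖ := by
      have := Complex.abs_re_le_norm (a + y * I : ℂ)
      rw [e1, abs_of_pos ha] at this
      exact this
    calc ‖Lap φ (a + y * I)‖ / ‖(a + y * I : ℂ)‖ ≤ (C * Real.exp (a - c * |y| ^ β)) / a := by
          exact div_le_div₀ (by positivity) h1 ha h2
      _ = C * Real.exp a / a * Real.exp (-c * |y| ^ β) := by
          rw [show a - c * |y| ^ β = a + (-c * |y| ^ β) by ring, Real.exp_add]
          ring

/-- inversion -/
theorem V_inv (hβ : 0 < β) (h : Wt β φ) {a : ℝ} (ha : 0 < a) (v : ℝ) :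
    ((V φ v : ℝ) : ℂ) = 1 / (2 * Real.pi) *
      ∫ y : ℝ, cexp (-((a + y * I) * v)) * (Lap φ (a + y * I) / (a + y * I)) := by
  set f : ℝ → ℂ := fun x : ℝ => ((V φ (Real.log x) : ℝ) : ℂ) with hf
  have hfc : ContinuousOn f (Ioi 0) := by
    refine Complex.continuous_ofReal.comp_continuousOn ((V_cont h).comp_continuousOn ?_)
    exact Real.continuousOn_log.mono fun x hx => (ne_of_gt (mem_Ioi.mp hx) : x ≠ 0)
  have hre : ∀ y : ℝ, (a + y * I : ℂ).re = a := by intro y; simp
  have h1 : MellinConvergent f (a : ℂ) := by
    refine mellinConvergent_of_isBigO_rpow (a := a + 1) (b := 0)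
      (hfc.locallyIntegrableOn measurableSet_Ioi) ?_ (by simp) ?_ (by simpa using ha)
    · have : f =ᶠ[atTop] fun _ => 0 := by
        filter_upwards [eventually_ge_atTop (Real.exp 1)] with x hx
        simp only [hf]
        rw [V_zero h, Complex.ofReal_zero]
        rw [Real.le_log_iff_exp_le (lt_of_lt_of_le (Real.exp_pos 1) hx)]
        exact hx
      exact this.trans_isBigO (Asymptotics.isBigO_zero _ _)
    · refine Asymptotics.IsBigO.of_bound (∫ v, |φ v|) (Eventually.of_forall fun x => ?_)
      simp only [hf]
      rw [Complex.norm_real, Real.norm_eq_abs, neg_zero, Real.rpow_zero, norm_one, mul_one]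
      exact V_bd h _
  have h2 : Complex.VerticalIntegrable (mellin f) a := by
    unfold Complex.VerticalIntegrable
    refine (G_int hβ h ha).congr (Eventually.of_forall fun y => ?_)
    simp only
    rw [hf, mellin_V h (by rw [hre]; exact ha)]
  have h3 := mellinInv_mellin_eq a f (Real.exp_pos v) h1 h2
    (hfc.continuousAt (Ioi_mem_nhds (Real.exp_pos v)))
  have e1 : f (Real.exp v) = ((V φ v : ℝ) : ℂ) := by
    simp only [hf]
    rw [Real.log_exp]
  rw [← e1, ← h3]
  unfold mellinInv
  rw [Complex.real_smul]
  congr 1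
  · push_cast
    ring
  · refine integral_congr_ae (Eventually.of_forall fun y => ?_)
    simp only
    rw [hf, mellin_V h (by rw [hre]; exact ha), smul_eq_mul]
    congr 1
    rw [Complex.cpow_def_of_ne_zero (by exact_mod_cast (Real.exp_pos v).ne'), ← Complex.ofReal_log
      (Real.exp_pos v).le, Real.log_exp]
    congr 1
    ring

theorem per : S_per := by
  intro β φ hβ h L a s hL ha hs
  set G : ℝ → ℂ := fun y => Lap φ (a + y * I) / (a + y * I) with hG
  have hGi : Integrable G := G_int hβ h ha
  set w : ℝ → ℂ := fun y => s + (a + y * I) / L with hw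
  have hLc : (L : ℂ) ≠ 0 := by exact_mod_cast hL.ne'
  have hwre : ∀ y, (w y).re = s.re + a / L := by
    intro y
    simp only [hw]
    rw [Complex.add_re, Complex.div_ofReal_re]
    simp
  set μf : ℕ → ℂ := fun n => (ArithmeticFunction.moebius n : ℂ) with hμ
  set F : ℕ → ℝ → ℂ := fun n y => LSeries.term μf (w y) n * G y with hF
  -- norms
  have hnorm : ∀ n y, ‖LSeries.term μf (w y) n‖ = ‖LSeries.term μf ((s.re + a / L : ℝ) : ℂ) n‖ := by
    intro n y
    rw [LSeries.norm_term_eq, LSeries.norm_term_eq, hwre, Complex.ofReal_re]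
  have hsum : LSeriesSummable μf ((s.re + a / L : ℝ) : ℂ) :=
    ArithmeticFunction.LSeriesSummable_moebius_iff.mpr (by rw [Complex.ofReal_re]; exact hs)
  -- values of the terms
  have hterm : ∀ n : ℕ, n ≠ 0 → ∀ y, LSeries.term μf (w y) n =
      (ArithmeticFunction.moebius n : ℂ) * (n : ℂ) ^ (-s) * cexp (-((a + y * I) * (Real.log n / L : ℝ))) := by
    intro n hn y
    have hnc : (n : ℂ) ≠ 0 := by exact_mod_cast hn
    rw [LSeries.term_of_ne_zero hn, div_eq_mul_inv, ← Complex.cpow_neg]
    simp only [hw, hμ]
    rw [neg_add, Complex.cpow_add _ _ hnc, ← mul_assoc]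
    congr 1
    rw [Complex.cpow_def_of_ne_zero hnc, ← Complex.natCast_log]
    congr 1
    push_cast
    ring
  have hFi : ∀ n, Integrable (F n) := by
    intro n
    refine hGi.bdd_mul (c := ‖LSeries.term μf ((s.re + a / L : ℝ) : ℂ) n‖) ?_
      (Eventually.of_forall fun y => (hnorm n y).le)
    rcases eq_or_ne n 0 with rfl | hn
    · simp only [LSeries.term_zero]
      exact aestronglyMeasurable_const
    · simp only [hterm n hn]
      refine Continuous.aestronglyMeasurable ?_
      fun_prop
  have hFs : Summable fun n => ∫ y, ‖F n y‖ := by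
    have e : (fun n => ∫ y, ‖F n y‖) = fun n =>
        ‖LSeries.term μf ((s.re + a / L : ℝ) : ℂ) n‖ * ∫ y, ‖G y‖ := by
      funext n
      simp only [hF, norm_mul, hnorm]
      rw [integral_const_mul]
    rw [e]
    exact hsum.norm.mul_right _
  have hmain := (hasSum_integral_of_summable_integral_norm hFi hFs).tsum_eq
  -- the sum inside
  have hin : ∀ y, ∑' n, F n y = (riemannZeta (w y))⁻¹ * Lap φ (a + y * I) / (a + y * I) := by
    intro y
    simp only [hF]
    rw [tsum_mul_right]
    have h1 : ∑' n, LSeries.term μf (w y) n = (riemannZeta (w y))⁻¹ := by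
      have hre : 1 < (w y).re := by rw [hwre]; exact hs
      have h2 := LSeries_one_mul_Lseries_moebius hre
      rw [LSeries_one_eq_riemannZeta hre] at h2
      exact (eq_inv_of_mul_eq_one_right h2)
    rw [h1, hG, mul_div_assoc]
  simp only [hin] at hmain
  rw [← hmain]
  -- the finite sum
  have hval : ∀ n : ℕ, 1 / (2 * (Real.pi : ℂ)) * ∫ y, F n y =
      (ArithmeticFunction.moebius n : ℂ) * ((V φ (Real.log n / L) : ℝ) : ℂ) * (n : ℂ) ^ (-s) := by
    intro n
    rcases eq_or_ne n 0 with rfl | hn
    · simp only [hF, LSeries.term_zero]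
      simp
    · simp only [hF, hterm n hn]
      have e : ∀ y : ℝ, (ArithmeticFunction.moebius n : ℂ) * (n : ℂ) ^ (-s) *
          cexp (-((a + y * I) * (Real.log n / L : ℝ))) * G y =
          ((ArithmeticFunction.moebius n : ℂ) * (n : ℂ) ^ (-s)) *
          (cexp (-((a + y * I) * (Real.log n / L : ℝ))) * G y) := fun y => by ring
      simp only [e]
      rw [integral_const_mul, V_inv hβ h ha (Real.log n / L)]
      ring
  rw [← tsum_mul_left]
  simp only [hval]
  unfold A
  symm
  refine tsum_eq_sum fun n hn => ?_
  rw [Finset.mem_Icc, not_and_or, not_le, not_le] at hn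
  rcases hn with hn | hn
  · have : n = 0 := by omega
    rw [this]
    simp
  · have h1 : Real.exp L < n := (Nat.floor_lt' (by omega)).mp hn
    have h2 : V φ (Real.log n / L) = 0 := by
      refine V_zero h ?_
      rw [le_div_iff₀ hL, one_mul, Real.le_log_iff_exp_le (lt_trans (Real.exp_pos L) h1)]
      exact h1.le
    rw [h2]
    simp

end

end Pool.Agent.Q153.BD
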