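import Pool.Agent.Q286.BD.Spec
import Pool.Agent.H388LH.ZG

set_option autoImplicit false

/-! Project BD (helper286), job B1 (helper153): orthogonality at a zero with multiplicity. -/

namespace Pool.Agent.Q153.BD

open Complex MeasureTheory Filter Topology Set
open Pool.Agent.Q286.BD

noncomputable section

/-- the fractional part, cut off at one -/
def fr (n : ℕ) (t : ℝ) : ℂ := (Ioi (1 : ℝ)).indicator (fun y => ((Int.fract (y / (n : ℝ)) : ℝ) : ℂ)) t

theorem fr_meas (n : ℕ) : Measurable (fr n) := by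
  unfold fr
  refine Measurable.indicator ?_ measurableSet_Ioi
  exact Complex.measurable_ofReal.comp (measurable_fract.comp (measurable_id.div_const _))

theorem fr_le (n : ℕ) (t : ℝ) : ‖fr n t‖ ≤ 1 := by
  unfold fr
  by_cases h : t ∈ Ioi (1 : ℝ)
  · rw [indicator_of_mem h, Complex.norm_real, Real.norm_eq_abs, abs_of_nonneg (Int.fract_nonneg _)]
    exact (Int.fract_lt_one _).le
  · rw [indicator_of_notMem h, norm_zero]
    norm_num

/-- powers of the logarithm times the fractional part -/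
def gj (n j : ℕ) (t : ℝ) : ℂ := (Real.log t ^ j) • fr n t

theorem gj_succ (n j : ℕ) : (fun t => Real.log t • gj n j t) = gj n (j + 1) := by
  funext t
  unfold gj
  rw [smul_smul, pow_succ']

theorem gj_loc (n j : ℕ) : LocallyIntegrableOn (gj n j) (Ioi 0) := by
  have h0 : LocallyIntegrable (fr n) := by
    refine (locallyIntegrable_const (1 : ℝ)).mono (fr_meas n).aestronglyMeasurable ?_
    refine Eventually.of_forall fun t => ?_
    rw [norm_one]
    exact fr_le n t
  have h1 : LocallyIntegrableOn (fr n) (Ioi 0) := h0.locallyIntegrableOn _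
  refine LocallyIntegrableOn.continuousOn_smul isOpen_Ioi.isLocallyClosed h1 ?_
  have hc : ContinuousOn Real.log (Ioi 0) :=
    Real.continuousOn_log.mono fun x hx => (ne_of_gt (mem_Ioi.mp hx) : x ≠ 0)
  exact hc.pow j

theorem gj_top (n j : ℕ) {a : ℝ} (ha : a < 0) : gj n j =O[atTop] (fun t : ℝ => t ^ (-a)) := by
  have h1 : (fun x : ℝ => Real.log x ^ (j : ℝ)) =o[atTop] fun x => x ^ (-a) :=
    isLittleO_log_rpow_rpow_atTop _ (by linarith)
  refine Asymptotics.IsBigO.trans ?_ h1.isBigO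
  refine Asymptotics.IsBigO.of_bound 1 (Eventually.of_forall fun t => ?_)
  unfold gj
  rw [norm_smul, Real.rpow_natCast, one_mul]
  exact mul_le_of_le_one_right (norm_nonneg _) (fr_le n t)

theorem gj_bot (n j : ℕ) (b : ℝ) : gj n j =O[𝓝[>] 0] (fun t : ℝ => t ^ (-b)) := by
  have h : gj n j =ᶠ[𝓝[>] 0] fun _ => 0 := by
    have h1 : Iio (1 : ℝ) ∈ 𝓝[>] (0 : ℝ) := mem_nhdsWithin_of_mem_nhds (Iio_mem_nhds one_pos)
    filter_upwards [h1] with t ht
    unfold gj fr
    rw [indicator_of_notMem (by rw [mem_Ioi, not_lt]; exact (mem_Iio.mp ht).le), smul_zero]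
  exact h.trans_isBigO (Asymptotics.isBigO_zero _ _)

theorem gj_deriv (n j : ℕ) {s : ℂ} (hs : s.re < 0) : MellinConvergent (gj n j) s ∧
    HasDerivAt (mellin (gj n j)) (mellin (gj n (j + 1)) s) s := by
  have h1 := mellin_hasDerivAt_of_isBigO_rpow (s := s) (gj_loc n j) (gj_top n j (a := s.re / 2) (by linarith))
    (by linarith) (gj_bot n j (s.re - 1)) (by linarith)
  have h0 := mellinConvergent_of_isBigO_rpow (s := s) (gj_loc n j) (gj_top n j (a := s.re / 2) (by linarith))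
    (by linarith) (gj_bot n j (s.re - 1)) (by linarith)
  rw [gj_succ] at h1
  exact ⟨h0, h1.2⟩

theorem gj_iter (n j : ℕ) : ∀ s : ℂ, s.re < 0 → iteratedDeriv j (mellin (gj n 0)) s =
    mellin (gj n j) s := by
  induction j with
  | zero => intro s _; rw [iteratedDeriv_zero]
  | succ j ih =>
    intro s hs
    rw [iteratedDeriv_succ]
    have h1 : iteratedDeriv j (mellin (gj n 0)) =ᶠ[𝓝 s] mellin (gj n j) := by
      have : {z : ℂ | z.re < 0} ∈ 𝓝 s := (isOpen_lt Complex.continuous_re continuous_const).mem_nhds hs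
      filter_upwards [this] with z hz
      exact ih z hz
    rw [h1.deriv_eq]
    exact (gj_deriv n j hs).2.deriv

theorem base {n : ℕ} (hn : 1 ≤ n) {z : ℂ} (hz : 0 < z.re) (hz1 : z ≠ 1) :
    ∫ y in Ioi (1 : ℝ), ((Int.fract (y / (n : ℝ)) : ℝ) : ℂ) * (y : ℂ) ^ (-z - 1) =
      -((n : ℂ) ^ (-z) * riemannZeta z / z) - 1 / (n * (1 - z)) := by
  have hn1 : (1 : ℝ) ≤ n := by exact_mod_cast hn
  have hn0 : (0 : ℝ) < n := by linarith
  have hnc : (n : ℂ) ≠ 0 := by exact_mod_cast hn0.ne'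
  have hz0 : z ≠ 0 := by rintro rfl; simp at hz
  -- integrability
  have hint : IntegrableOn (fun y : ℝ => ((Int.fract (y / (n : ℝ)) : ℝ) : ℂ) * (y : ℂ) ^ (-z - 1)) (Ioi 1) := by
    have h1 : IntegrableOn (fun y : ℝ => y ^ (-z.re - 1)) (Ioi 1) :=
      integrableOn_Ioi_rpow_of_lt (by linarith) one_pos
    refine h1.mono' ?_ ?_
    · refine AEStronglyMeasurable.mul ?_ ?_
      · exact (Complex.measurable_ofReal.comp
          (measurable_fract.comp (measurable_id.div_const _))).aestronglyMeasurable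
      · refine ContinuousOn.aestronglyMeasurable ?_ measurableSet_Ioi
        intro y hy
        refine ContinuousAt.continuousWithinAt ?_
        exact Complex.continuousAt_ofReal_cpow_const y _ (Or.inr (lt_trans one_pos (mem_Ioi.mp hy)).ne')
    · rw [ae_restrict_iff' measurableSet_Ioi]
      refine Eventually.of_forall fun y hy => ?_
      have hy0 : (0 : ℝ) < y := lt_trans one_pos hy
      rw [norm_mul, Complex.norm_real, Real.norm_eq_abs, abs_of_nonneg (Int.fract_nonneg _),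
        Complex.norm_cpow_eq_rpow_re_of_pos hy0]
      have : (-z - 1).re = -z.re - 1 := by simp
      rw [this]
      exact mul_le_of_le_one_left (by positivity) (Int.fract_lt_one _).le
  rw [← Ioc_union_Ioi_eq_Ioi hn1, setIntegral_union (Ioc_disjoint_Ioi le_rfl) measurableSet_Ioi
    (hint.mono_set Ioc_subset_Ioi_self) (hint.mono_set (Ioi_subset_Ioi hn1))]
  -- the first part
  have p1 : ∫ y in Ioc (1 : ℝ) n, ((Int.fract (y / (n : ℝ)) : ℝ) : ℂ) * (y : ℂ) ^ (-z - 1) =
      1 / n * (((n : ℂ) ^ (1 - z) - 1) / (1 - z)) := by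
    have e1 : ∫ y in Ioc (1 : ℝ) n, ((Int.fract (y / (n : ℝ)) : ℝ) : ℂ) * (y : ℂ) ^ (-z - 1) =
        ∫ y in Ioc (1 : ℝ) n, 1 / (n : ℂ) * (y : ℂ) ^ (-z) := by
      rw [integral_Ioc_eq_integral_Ioo, integral_Ioc_eq_integral_Ioo]
      refine setIntegral_congr_fun measurableSet_Ioo fun y hy => ?_
      have hy0 : (0 : ℝ) < y := lt_trans one_pos hy.1
      have hyc : (y : ℂ) ≠ 0 := by exact_mod_cast hy0.ne'
      have hf : Int.fract (y / (n : ℝ)) = y / n :=
        Int.fract_eq_self.mpr ⟨by positivity, (div_lt_one hn0).mpr hy.2⟩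
      rw [hf, show (-z - 1) = -z + (-1) by ring, Complex.cpow_add _ _ hyc, Complex.cpow_neg_one]
      push_cast
      field_simp
    rw [e1, integral_const_mul, ← intervalIntegral.integral_of_le hn1, integral_cpow]
    · rw [Complex.ofReal_one, Complex.one_cpow, show -z + 1 = 1 - z by ring]
      push_cast
      rfl
    · refine Or.inr ⟨?_, ?_⟩
      · intro h
        apply hz1
        linear_combination -h
      · rw [uIcc_of_le hn1, mem_Icc]
        intro h
        linarith [h.1]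
  have p2 : ∫ y in Ioi (n : ℝ), ((Int.fract (y / (n : ℝ)) : ℝ) : ℂ) * (y : ℂ) ^ (-z - 1) =
      (n : ℂ) ^ (-z) * ∫ u in Ioi (1 : ℝ), ((Int.fract u : ℝ) : ℂ) * (u : ℂ) ^ (-z - 1) := by
    have h := integral_comp_mul_left_Ioi
      (fun y : ℝ => ((Int.fract (y / (n : ℝ)) : ℝ) : ℂ) * (y : ℂ) ^ (-z - 1)) 1 hn0
    rw [mul_one] at h
    have h2 : ∫ y in Ioi (n : ℝ), ((Int.fract (y / (n : ℝ)) : ℝ) : ℂ) * (y : ℂ) ^ (-z - 1) =
        (n : ℂ) * ∫ x in Ioi (1 : ℝ), ((Int.fract (n * x / (n : ℝ)) : ℝ) : ℂ) *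
          ((n * x : ℝ) : ℂ) ^ (-z - 1) := by
      rw [h, Complex.real_smul]
      push_cast
      rw [← mul_assoc, mul_inv_cancel₀ hnc, one_mul]
    rw [h2, ← integral_const_mul, ← integral_const_mul]
    refine setIntegral_congr_fun measurableSet_Ioi fun x hx => ?_
    have hx0 : (0 : ℝ) < x := lt_trans one_pos hx
    have e2 : (n : ℝ) * x / n = x := by field_simp
    rw [e2, Complex.ofReal_mul, Complex.mul_cpow_ofReal_nonneg hn0.le hx0.le, Complex.ofReal_natCast,
      show (-z - 1) = -z + (-1) by ring, Complex.cpow_add _ _ hnc, Complex.cpow_neg_one]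
    field_simp
  rw [p1, p2]
  have hze := Pool.Agent.H388LH.zeta_eq hz hz1
  have hI : ∫ u in Ioi (1 : ℝ), ((Int.fract u : ℝ) : ℂ) * (u : ℂ) ^ (-z - 1) =
      (1 + 1 / (z - 1) - riemannZeta z) / z := by
    rw [eq_div_iff hz0, hze]
    ring
  rw [hI, Complex.cpow_sub _ _ hnc, Complex.cpow_one, Complex.cpow_neg]
  have h1 : z - 1 ≠ 0 := sub_ne_zero.mpr hz1
  have h2 : 1 - z ≠ 0 := sub_ne_zero.mpr (Ne.symm hz1)
  have h3 : (n : ℂ) ^ z ≠ 0 := by
    rw [Complex.cpow_ne_zero_iff]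
    exact Or.inl hnc
  have h4 : 1 / (z - 1) = -(1 / (1 - z)) := by
    rw [← neg_sub 1 z, one_div_neg_eq_neg_one_div]
  rw [h4]
  field_simp
  ring

/-- the iterated derivative of a simple fraction -/
theorem frac_iter (c : ℂ) (j : ℕ) (s : ℂ) :
    iteratedDeriv j (fun z : ℂ => c * (1 * z + 1)⁻¹) s =
      c * ((-1) ^ j * (j.factorial : ℂ) * ((1 * s + 1) ^ (j + 1))⁻¹) := by
  rw [iteratedDeriv_const_mul_field, iteratedDeriv_eq_iterate, iter_deriv_inv_linear]
  congr 1
  rw [one_pow, mul_one]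
  change (-1) ^ j * (j.factorial : ℂ) * (1 * s + 1) ^ (-1 - (j : ℤ)) = _
  rw [show (-1 - (j : ℤ)) = -((j + 1 : ℕ) : ℤ) by push_cast; ring, zpow_neg, zpow_natCast]

/-- the part with zeta has vanishing derivatives -/
theorem zeta_iter {ρ : ℂ} (h0 : 0 < ρ.re) (h1 : ρ.re < 1) {n : ℕ} (hn : 1 ≤ n) {j : ℕ} (hj : j < mz ρ) :
    AnalyticAt ℂ (fun s : ℂ => (n : ℂ) ^ s * riemannZeta (-s) / s) (-ρ) ∧
    iteratedDeriv j (fun s : ℂ => (n : ℂ) ^ s * riemannZeta (-s) / s) (-ρ) = 0 := by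
  have hnc : (n : ℂ) ≠ 0 := by exact_mod_cast (by omega : n ≠ 0)
  have hρ1 : ρ ≠ 1 := by rintro rfl; simp at h1
  have hρ0 : ρ ≠ 0 := by rintro rfl; simp at h0
  have hζ : AnalyticAt ℂ riemannZeta ρ :=
    DifferentiableOn.analyticAt (s := {1}ᶜ)
      (fun z hz => (differentiableAt_riemannZeta hz).differentiableWithinAt)
      (isOpen_compl_singleton.mem_nhds hρ1)
  have hneg : AnalyticAt ℂ (fun s : ℂ => -s) (-ρ) := analyticAt_id.neg
  have hpow : AnalyticAt ℂ (fun s : ℂ => (n : ℂ) ^ s) (-ρ) := by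
    have : (fun s : ℂ => (n : ℂ) ^ s) = fun s : ℂ => cexp (Complex.log n * s) := by
      funext s
      rw [Complex.cpow_def_of_ne_zero hnc]
    rw [this]
    exact (analyticAt_const.mul analyticAt_id).cexp
  have hinv : AnalyticAt ℂ (fun s : ℂ => s⁻¹) (-ρ) := analyticAt_inv (neg_ne_zero.mpr hρ0)
  have hord : ((mz ρ : ℕ) : ℕ∞) ≤ analyticOrderAt riemannZeta ρ := ENat.coe_toNat_le_self _
  obtain ⟨g, hg, hgz⟩ := (natCast_le_analyticOrderAt hζ).mp hord
  have hζc : AnalyticAt ℂ (fun s : ℂ => riemannZeta (-s)) (-ρ) := by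
    refine AnalyticAt.comp' (g := riemannZeta) (f := fun s : ℂ => -s) ?_ hneg
    rw [neg_neg]
    exact hζ
  have hgc : AnalyticAt ℂ (fun s : ℂ => g (-s)) (-ρ) := by
    refine AnalyticAt.comp' (g := g) (f := fun s : ℂ => -s) ?_ hneg
    rw [neg_neg]
    exact hg
  have hH : AnalyticAt ℂ (fun s : ℂ => (n : ℂ) ^ s * riemannZeta (-s) / s) (-ρ) := by
    have := (hpow.mul hζc).mul hinv
    exact this
  refine ⟨hH, ?_⟩
  refine (natCast_le_analyticOrderAt_iff_iteratedDeriv_eq_zero hH).mp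
    ((natCast_le_analyticOrderAt hH).mpr ⟨fun s => (-1) ^ (mz ρ) * ((n : ℂ) ^ s * g (-s) * s⁻¹),
      analyticAt_const.mul ((hpow.mul hgc).mul hinv), ?_⟩) j hj
  have hcont : Tendsto (fun s : ℂ => -s) (𝓝 (-ρ)) (𝓝 ρ) := by
    have := (continuous_neg (G := ℂ)).tendsto (-ρ)
    rwa [neg_neg] at this
  filter_upwards [hcont.eventually hgz] with s hs
  rw [hs, smul_eq_mul, smul_eq_mul, sub_neg_eq_add,
    show -s - ρ = (-1) * (s + ρ) by ring, mul_pow]
  ring

theorem mellin_gj {n : ℕ} (j : ℕ) (s : ℂ) : mellin (gj n j) s =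
    ∫ y in Ioi (1 : ℝ), ((Int.fract (y / (n : ℝ)) : ℝ) : ℂ) * (y : ℂ) ^ (s - 1) *
      ((Real.log y : ℝ) : ℂ) ^ j := by
  unfold mellin
  have e : ∀ t : ℝ, (t : ℂ) ^ (s - 1) • gj n j t = (Ioi (1 : ℝ)).indicator (fun y : ℝ =>
      ((Int.fract (y / (n : ℝ)) : ℝ) : ℂ) * (y : ℂ) ^ (s - 1) * ((Real.log y : ℝ) : ℂ) ^ j) t := by
    intro t
    unfold gj fr
    by_cases h : t ∈ Ioi (1 : ℝ)
    · rw [indicator_of_mem h, indicator_of_mem h, Complex.real_smul, smul_eq_mul]
      push_cast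
      ring
    · rw [indicator_of_notMem h, indicator_of_notMem h, smul_zero, smul_zero]
  simp only [e]
  rw [setIntegral_indicator measurableSet_Ioi, Ioi_inter_Ioi, max_eq_right zero_le_one]

theorem orth : S_orth := by
  intro ρ h0 h1 j n hj hn
  have hs : (-ρ).re < 0 := by simpa using h0
  have hnc : (n : ℂ) ≠ 0 := by exact_mod_cast (by omega : n ≠ 0)
  constructor
  · have hM := (gj_deriv n j hs).1
    unfold MellinConvergent at hM
    have hM1 : IntegrableOn (fun t : ℝ => (t : ℂ) ^ (-ρ - 1) • gj n j t) (Ioi 1) :=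
      hM.mono_set (Ioi_subset_Ioi zero_le_one)
    refine hM1.congr_fun ?_ measurableSet_Ioi
    intro t ht
    unfold gj fr
    simp only
    rw [indicator_of_mem ht, Complex.real_smul, smul_eq_mul]
    push_cast
    ring
  · have hrw := mellin_gj (n := n) j (-ρ)
    rw [← hrw, ← gj_iter n j (-ρ) hs]
    have hev : mellin (gj n 0) =ᶠ[𝓝 (-ρ)] (fun s : ℂ => (n : ℂ) ^ s * riemannZeta (-s) / s) +
        fun s : ℂ => (-(1 / (n : ℂ))) * (1 * s + 1)⁻¹ := by
      have o1 : {z : ℂ | z.re < 0} ∈ 𝓝 (-ρ) :=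
        (isOpen_lt Complex.continuous_re continuous_const).mem_nhds hs
      have o2 : {z : ℂ | -1 < z.re} ∈ 𝓝 (-ρ) :=
        (isOpen_lt continuous_const Complex.continuous_re).mem_nhds (by simpa using h1)
      filter_upwards [o1, o2] with z hz1 hz2
      have hz1' : 0 < (-z).re := by simpa using hz1
      have hzne : -z ≠ 1 := by
        intro h
        have := congrArg Complex.re h
        simp at this
        have h3 : -1 < z.re := hz2
        linarith
      have hb := base hn hz1' hzne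
      rw [mellin_gj (n := n) 0 z, Pi.add_apply]
      simp only [pow_zero, mul_one, neg_neg] at hb ⊢
      rw [hb]
      have hz0 : z ≠ 0 := by rintro rfl; simp at hz1
      rw [sub_neg_eq_add]
      have h4 : 1 + z ≠ 0 := by
        intro h
        apply hzne
        linear_combination -h
      have h5 : 1 * z + 1 ≠ 0 := by
        rw [one_mul, add_comm]; exact h4
      rw [one_mul] at h5 ⊢
      field_simp
      ring
    rw [hev.iteratedDeriv_eq]
    obtain ⟨hA, hz⟩ := zeta_iter h0 h1 hn hj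
    have h6 : 1 * (-ρ) + 1 ≠ 0 := by
      intro h
      have h7 : ρ = 1 := by linear_combination -h
      rw [h7] at h1
      simp at h1
    have hB : AnalyticAt ℂ (fun s : ℂ => (-(1 / (n : ℂ))) * (1 * s + 1)⁻¹) (-ρ) :=
      analyticAt_const.mul (((analyticAt_const.mul analyticAt_id).add analyticAt_const).inv h6)
    rw [iteratedDeriv_add hA.contDiffAt hB.contDiffAt, hz, frac_iter, zero_add]
    rw [show 1 * (-ρ) + 1 = 1 - ρ by ring]
    ring

end

end Pool.Agent.Q153.BD
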