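import Pool.Agent.Q153.BD.T1a

set_option autoImplicit false

/-! Project BD (helper286), job B4a (helper153), part 2. -/

namespace Pool.Agent.Q153.BD

open Complex MeasureTheory Filter Topology Set
open Pool.Agent.Q286.BD

noncomputable section

theorem dom_int (C : ℝ) : Integrable ((Ici (1 : ℝ)).indicator (fun t : ℝ => C * t ^ (-(5 / 4) : ℝ))) := by
  rw [integrable_indicator_iff measurableSet_Ici, integrableOn_Ici_iff_integrableOn_Ioi]
  exact (integrableOn_Ioi_rpow_of_lt (by norm_num) one_pos).const_mul C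

theorem dom_val (C : ℝ) : ∫ t, (Ici (1 : ℝ)).indicator (fun t : ℝ => C * t ^ (-(5 / 4) : ℝ)) t = C * 4 := by
  rw [integral_indicator measurableSet_Ici, integral_Ici_eq_integral_Ioi, integral_const_mul,
    integral_Ioi_rpow_of_lt (by norm_num) one_pos]
  norm_num

theorem log_pow_le (j : ℕ) : ∃ C : ℝ, 0 ≤ C ∧ ∀ y : ℝ, 1 ≤ y → Real.log y ^ j ≤ C * y ^ (1 / 4 : ℝ) := by
  set ε : ℝ := 1 / (4 * ((j : ℝ) + 1)) with hε
  have hε0 : 0 < ε := by positivity
  refine ⟨(1 / ε) ^ j, by positivity, fun y hy => ?_⟩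
  have hy0 : 0 < y := by linarith
  have h1 := Real.log_le_rpow_div hy0.le hε0
  calc Real.log y ^ j ≤ (y ^ ε / ε) ^ j := pow_le_pow_left₀ (Real.log_nonneg hy) h1 j
    _ = (1 / ε) ^ j * y ^ (ε * j) := by
        rw [div_pow, ← Real.rpow_natCast (y ^ ε) j, ← Real.rpow_mul hy0.le]
        rw [one_div, inv_pow]
        ring
    _ ≤ (1 / ε) ^ j * y ^ (1 / 4 : ℝ) := by
        refine mul_le_mul_of_nonneg_left (Real.rpow_le_rpow_of_exponent_le hy ?_) (by positivity)
        rw [hε, div_mul_eq_mul_div, one_mul, div_le_div_iff₀ (by positivity) (by norm_num)]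
        linarith

theorem pl_int {ρ : ℂ} (hρ : ρ.re = 1 / 2) (j : ℕ) :
    IntegrableOn (fun y : ℝ => (y : ℂ) ^ (-ρ - 1) * ((Real.log y : ℝ) : ℂ) ^ j) (Ioi 1) := by
  obtain ⟨C, hC, hb⟩ := log_pow_le j
  have h1 : IntegrableOn (fun y : ℝ => C * y ^ (-(5 / 4) : ℝ)) (Ioi 1) :=
    (integrableOn_Ioi_rpow_of_lt (by norm_num) one_pos).const_mul C
  refine h1.mono' ?_ ?_
  · refine ContinuousOn.aestronglyMeasurable ?_ measurableSet_Ioi
    intro y hy
    have hy0 : (0 : ℝ) < y := lt_trans one_pos (mem_Ioi.mp hy)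
    refine ContinuousAt.continuousWithinAt ?_
    refine (Complex.continuousAt_ofReal_cpow_const y _ (Or.inr hy0.ne')).mul ?_
    exact (Complex.continuous_ofReal.continuousAt.comp (Real.continuousAt_log hy0.ne')).pow j
  · rw [ae_restrict_iff' measurableSet_Ioi]
    refine Eventually.of_forall fun y hy => ?_
    have hy1 : (1 : ℝ) < y := mem_Ioi.mp hy
    have hy0 : (0 : ℝ) < y := lt_trans one_pos hy1
    rw [norm_mul, norm_pow, Complex.norm_real, Real.norm_eq_abs, abs_of_nonneg (Real.log_nonneg hy1.le),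
      Complex.norm_cpow_eq_rpow_re_of_pos hy0]
    have e : (-ρ - 1).re = -(3 / 2) := by
      rw [Complex.sub_re, Complex.neg_re, hρ, Complex.one_re]
      norm_num
    rw [e]
    calc y ^ (-(3 / 2) : ℝ) * Real.log y ^ j ≤ y ^ (-(3 / 2) : ℝ) * (C * y ^ (1 / 4 : ℝ)) :=
          mul_le_mul_of_nonneg_left (hb y hy1.le) (by positivity)
      _ = C * (y ^ (-(3 / 2) : ℝ) * y ^ (1 / 4 : ℝ)) := by ring
      _ = C * y ^ (-(5 / 4) : ℝ) := by
          rw [← Real.rpow_add hy0]
          norm_num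

theorem bump_supp {b : ℝ → ℝ} (hb : Bump b) : HasCompactSupport b := by
  refine HasCompactSupport.intro (isCompact_Icc (a := 1) (b := 2)) fun u hu => ?_
  by_contra h0
  exact hu ⟨(hb.supp u h0).1, (hb.supp u h0).2⟩

theorem bump_iter_int {b : ℝ → ℝ} (hb : Bump b) (j : ℕ) : Integrable (iteratedDeriv j b) := by
  refine Continuous.integrable_of_hasCompactSupport ((hb.smooth j).continuous_iteratedDeriv j le_rfl) ?_
  refine HasCompactSupport.intro (isCompact_Icc (a := 1) (b := 2)) fun u hu => ?_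
  have h1 : b =ᶠ[𝓝 u] fun _ => 0 := by
    filter_upwards [(isClosed_Icc (a := (1 : ℝ)) (b := 2)).isOpen_compl.mem_nhds hu] with x hx
    by_contra h0
    exact hx ⟨(hb.supp x h0).1, (hb.supp x h0).2⟩
  rw [h1.iteratedDeriv_eq]
  simp

/-- iterated derivative of a real function seen as a complex function -/
theorem iter_ofReal {b : ℝ → ℝ} (hb : ∀ n : ℕ, ContDiff ℝ n b) (j : ℕ) :
    iteratedDeriv j (fun t : ℝ => ((b t : ℝ) : ℂ)) = fun t : ℝ => ((iteratedDeriv j b t : ℝ) : ℂ) := by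
  induction j with
  | zero => simp
  | succ j ih =>
    rw [iteratedDeriv_succ, ih]
    funext t
    rw [iteratedDeriv_succ]
    exact (((hb (j + 1)).differentiable_iteratedDeriv j
        (by exact_mod_cast Nat.lt_succ_self j)).differentiableAt.hasDerivAt.ofReal_comp).deriv

theorem t1 (h1 : S_orth) (h2 : S_saw) : S_T1 := by
  intro b hb g p hζ hdeg δ hδ hδ4
  set ρ : ℂ := cl g with hρ
  have hρre : ρ.re = 1 / 2 := by simp [hρ, cl]
  have hρ0 : ρ ≠ 0 := by
    intro h
    rw [h] at hρre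
    norm_num at hρre
  have hρ1 : (1 : ℂ) - ρ ≠ 0 := by
    intro h
    have := congrArg Complex.re h
    rw [Complex.sub_re, hρre] at this
    norm_num at this
  set s : ℂ := -ρ - 1 with hs
  have hsre : s.re = -(3 / 2) := by
    rw [hs, Complex.sub_re, Complex.neg_re, hρre, Complex.one_re]
    norm_num
  obtain ⟨J, hJ⟩ : ∃ J : ℕ, 6 / δ ≤ J := exists_nat_ge _
  obtain ⟨Cs, hCs, hsaw⟩ := h2 J
  have hd1 : (0 : ℝ) < 1 + 2 * δ := by linarith
  set q : Polynomial ℝ := p.comp (Polynomial.C (1 / (1 + 2 * δ)) *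
    (Polynomial.C (1 + δ) + Polynomial.X)) with hq
  have hqe : ∀ w : ℝ, q.eval w = p.eval ((1 + δ + w) / (1 + 2 * δ)) := by
    intro w
    rw [hq, Polynomial.eval_comp]
    simp only [Polynomial.eval_mul, Polynomial.eval_C, Polynomial.eval_X, Polynomial.eval_add]
    congr 1
    ring
  set H : ℝ → ℝ := HH q δ with hH
  have hHs : ∀ n : ℕ, ContDiff ℝ n H := HH_smooth q δ
  have hH0 : ∀ w ≤ 0, H w = 0 := fun w hw => HH_zero q hδ hw
  have hQb := fun k => QQ_bd hHs hH0 (HH_bd q hδ) hsre k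
  choose CQ hCQ0 hCQ using hQb
  -- constants
  set BJ : ℝ := ∫ t, |iteratedDeriv J b t| with hBJ
  have hBJ0 : 0 ≤ BJ := integral_nonneg fun t => abs_nonneg _
  set Jj : ℕ → ℂ := fun j => ∫ y in Ioi (1 : ℝ), (y : ℂ) ^ (-ρ - 1) * ((Real.log y : ℝ) : ℂ) ^ j with hJj
  set Ck : ℝ := ∑ j ∈ p.support, |p.coeff j| * ((j.factorial : ℝ) / ‖1 - ρ‖ ^ (j + 1)) with hCk
  set Cp : ℝ := ∑ j ∈ Finset.range p.natDegree, |p.coeff (j + 1)| * ‖Jj (j + 1)‖ with hCp
  have hCk0 : 0 ≤ Ck := Finset.sum_nonneg fun j _ => by positivity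
  have hCp0 : 0 ≤ Cp := Finset.sum_nonneg fun j _ => by positivity
  set Cw : ℝ := CQ J * 4 + CQ 0 * 4 * BJ with hCw
  have hCw0 : 0 ≤ Cw := by
    have := hCQ0 J
    have := hCQ0 0
    positivity
  have hC00 := hCQ0 0
  refine ⟨1 + Ck + Cp + CQ 0 * 4 + Cs * Cw, by positivity, fun L hL => ?_⟩
  have hL0 : 0 < L := by linarith
  set M : ℝ := (1 + δ) * L with hM
  have hM0 : 0 < M := by positivity
  set Y : ℝ := Real.exp M with hY
  have hY1 : 1 < Y := Real.one_lt_exp_iff.mpr hM0
  have hY0 : 0 < Y := by linarith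
  set Q : ℝ → ℂ := QQ H s L with hQ
  have hQi : ∀ k, Integrable (iteratedDeriv k Q) := by
    intro k
    refine (dom_int (CQ k)).mono' ?_ (Eventually.of_forall fun t => hCQ k L hL t)
    exact ((QQ_smooth hHs hH0 s hL0 k).continuous_iteratedDeriv k le_rfl).aestronglyMeasurable
  have hQn : ∀ k, ∫ t, ‖iteratedDeriv k Q t‖ ≤ CQ k * 4 := by
    intro k
    rw [← dom_val (CQ k)]
    exact integral_mono (hQi k).norm (dom_int (CQ k)) fun t => hCQ k L hL t
  have hQi0 : Integrable Q := by simpa using hQi 0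
  set c' : ℂ := ∫ t, Q t with hc'
  have hc'n : ‖c'‖ ≤ CQ 0 * 4 := by
    refine (norm_integral_le_integral_norm _).trans ?_
    simpa using hQn 0
  set κ : ℂ := ∑ j ∈ p.support, ((p.coeff j : ℝ) : ℂ) * (1 / (((1 + 2 * δ) * L : ℝ) : ℂ)) ^ j *
    ((-1) ^ j * (j.factorial : ℂ) / (1 - ρ) ^ (j + 1)) with hκ
  set c : ℂ := cexp (-ρ * M) * c' with hc
  set W : ℝ → ℂ := fun t => -Q t + c' * ((b t : ℝ) : ℂ) with hW
  have hbi : Integrable fun t : ℝ => ((b t : ℝ) : ℂ) := by
    have := bump_iter_int hb 0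
    rw [iteratedDeriv_zero] at this
    exact this.ofReal
  have hWi : Integrable W := hQi0.neg.add (hbi.const_mul c')
  have hWs : ContDiff ℝ J W :=
    (QQ_smooth hHs hH0 s hL0 J).neg.add
      (contDiff_const.mul (Complex.ofRealCLM.contDiff.comp (hb.smooth J)))
  have hWd : ∀ j : ℕ, iteratedDeriv j W = fun t => -iteratedDeriv j Q t +
      c' * ((iteratedDeriv j b t : ℝ) : ℂ) := by
    intro j
    funext t
    have e1 : W = (-Q) + fun t => c' * ((b t : ℝ) : ℂ) := rfl
    rw [e1, iteratedDeriv_add]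
    · rw [iteratedDeriv_neg, iteratedDeriv_const_mul_field, iter_ofReal hb.smooth]
    · exact (QQ_smooth hHs hH0 s hL0 j).neg.contDiffAt
    · exact (contDiff_const.mul (Complex.ofRealCLM.contDiff.comp (hb.smooth j))).contDiffAt
  have hWdi : ∀ j : ℕ, Integrable (iteratedDeriv j W) := by
    intro j
    rw [hWd]
    exact (hQi j).neg.add ((bump_iter_int hb j).ofReal.const_mul c')
  have hWn : ∫ t, ‖iteratedDeriv J W t‖ ≤ Cw := by
    have e1 : ∀ t, ‖iteratedDeriv J W t‖ ≤ ‖iteratedDeriv J Q t‖ + ‖c'‖ * |iteratedDeriv J b t| := by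
      intro t
      rw [hWd]
      refine (norm_add_le _ _).trans ?_
      rw [norm_neg, norm_mul, Complex.norm_real, Real.norm_eq_abs]
    have i1 : Integrable fun t => ‖c'‖ * |iteratedDeriv J b t| := (bump_iter_int hb J).abs.const_mul _
    calc ∫ t, ‖iteratedDeriv J W t‖ ≤ ∫ t, (‖iteratedDeriv J Q t‖ + ‖c'‖ * |iteratedDeriv J b t|) :=
          integral_mono (hWdi J).norm ((hQi J).norm.add i1) e1
      _ = (∫ t, ‖iteratedDeriv J Q t‖) + ‖c'‖ * BJ := by
          rw [integral_add (hQi J).norm i1, integral_const_mul]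
      _ ≤ CQ J * 4 + CQ 0 * 4 * BJ :=
          add_le_add (hQn J) (mul_le_mul_of_nonneg_right hc'n hBJ0)
  have hW0 : ∫ t, W t = 0 := by
    have e1 : ∫ t, W t = (∫ t, -Q t) + ∫ t, c' * ((b t : ℝ) : ℂ) :=
      integral_add hQi0.neg (hbi.const_mul c')
    rw [e1, integral_neg, integral_const_mul, integral_complex_ofReal, hb.mass]
    simp [hc']
  -- the two parts
  set f : ℝ → ℂ := fun y => (y : ℂ) ^ (-ρ - 1) *
    ((p.eval (Real.log y / ((1 + 2 * δ) * L)) : ℝ) : ℂ) with hf
  set R : ℝ → ℂ := fun y => cexp (s * M) * W (y / Y) with hR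
  have hRi : Integrable R := (hWi.comp_div hY0.ne').const_mul _
  have hRsmall : ∀ y : ℝ, y ≤ 1 → R y = 0 := by
    intro y hy
    have h3 : y / Y < 1 := by
      rw [div_lt_one hY0]; linarith
    have h4 : Q (y / Y) = 0 := by
      rw [hQ]
      unfold QQ
      rw [if_pos h3.le]
    have h5 : b (y / Y) = 0 := by
      by_contra h0
      have := (hb.supp _ h0).1
      linarith
    simp only [hR, hW]
    rw [h4, h5]
    simp
  have hKK : ∀ y : ℝ, 1 < y → KK b g p δ L κ c y = f y + R y := by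
    intro y hy
    have hy0 : 0 < y := by linarith
    have hyc : (y : ℂ) ≠ 0 := by exact_mod_cast hy0.ne'
    unfold KK
    rw [if_neg (by linarith), if_neg (by linarith)]
    have hdiv : y * Real.exp (-((1 + δ) * L)) = y / Y := by
      rw [Real.exp_neg, ← hM, ← hY]
      rfl
    have hexp : ((Real.exp (-((1 + δ) * L)) : ℝ) : ℂ) = cexp (-(M : ℂ)) := by
      rw [Complex.ofReal_exp, ← hM]
      push_cast
      rfl
    rw [hdiv, hexp, ← hρ]
    have hlogt : Real.log (y / Y) = Real.log y - M := by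
      rw [Real.log_div hy0.ne' hY0.ne', hY, Real.log_exp]
    have e1 : cexp (s * M) * Q (y / Y) = (y : ℂ) ^ (-ρ - 1) *
        ((p.eval (Real.log y / ((1 + 2 * δ) * L)) : ℝ) : ℂ) * (1 - ((hcut δ (Real.log y / L) : ℝ) : ℂ)) := by
      rw [hQ, QQ_pos hH0 s hL0 (by positivity), hlogt, ← mul_assoc, ← Complex.exp_add]
      have a1 : s * (M : ℂ) + s * ((Real.log y - M : ℝ) : ℂ) = Complex.log y * (-ρ - 1) := by
        rw [← Complex.ofReal_log hy0.le, hs]
        push_cast
        ring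
      rw [a1, ← Complex.cpow_def_of_ne_zero hyc, mul_assoc]
      congr 1
      rw [hH]
      unfold HH hcut
      rw [hqe]
      have a2 : (1 + δ + (Real.log y - M) / L) / (1 + 2 * δ) = Real.log y / ((1 + 2 * δ) * L) := by
        rw [hM]
        field_simp
        ring
      have a3 : (Real.log y - M) / L / δ = (Real.log y / L - 1 - δ) / δ := by
        rw [hM]
        field_simp
        ring
      rw [a2, a3]
      push_cast
      ring
    simp only [hR, hW, hf]
    have e2 : cexp (s * M) * (-Q (y / Y) + c' * ((b (y / Y) : ℝ) : ℂ)) =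
        -(cexp (s * M) * Q (y / Y)) + cexp (s * M) * c' * ((b (y / Y) : ℝ) : ℂ) := by ring
    rw [e2, e1]
    have e3 : c * cexp (-(M : ℂ)) = cexp (s * M) * c' := by
      rw [hc, mul_right_comm, ← Complex.exp_add]
      congr 2
      rw [hs]
      ring
    rw [e3]
    ring
  -- norm of the factor
  have hfac : ‖cexp (s * M)‖ = Y ^ (-(3 / 2) : ℝ) := by
    rw [Complex.norm_exp, Complex.re_mul_ofReal, hsre, Real.rpow_def_of_pos hY0, hY, Real.log_exp]
    congr 1
    ring
  have hfint : IntegrableOn f (Ioi 1) := by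
    have e : f = fun y : ℝ => ∑ j ∈ Finset.range (p.natDegree + 1), ((p.coeff j : ℝ) : ℂ) *
        (1 / (((1 + 2 * δ) * L : ℝ) : ℂ)) ^ j * ((y : ℂ) ^ (-ρ - 1) * ((Real.log y : ℝ) : ℂ) ^ j) := by
      funext y
      simp only [hf]
      rw [Polynomial.eval_eq_sum_range, Complex.ofReal_sum, Finset.mul_sum]
      refine Finset.sum_congr rfl fun j _ => ?_
      push_cast
      rw [div_pow, one_div, inv_pow, div_eq_mul_inv]
      ring
    rw [e]
    exact integrable_finsetSum _ fun j _ => (pl_int hρre j).const_mul _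
  refine ⟨κ, c, ?_, ?_, ?_, ?_⟩
  · -- the size of κ
    have : ‖κ‖ ≤ Ck := by
      refine (norm_sum_le _ _).trans (Finset.sum_le_sum fun j _ => ?_)
      rw [norm_mul, norm_mul, Complex.norm_real, Real.norm_eq_abs, norm_pow, norm_div, norm_one,
        Complex.norm_real, Real.norm_eq_abs, abs_of_pos (mul_pos hd1 hL0), norm_div, norm_mul,
        norm_pow, norm_neg, norm_one, one_pow, one_mul, norm_pow, Complex.norm_natCast]
      have h3 : (1 / ((1 + 2 * δ) * L)) ^ j ≤ 1 := by
        refine pow_le_one₀ (by positivity) ?_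
        rw [div_le_one (by positivity)]
        nlinarith
      calc |p.coeff j| * (1 / ((1 + 2 * δ) * L)) ^ j * ((j.factorial : ℝ) / ‖1 - ρ‖ ^ (j + 1))
          ≤ |p.coeff j| * 1 * ((j.factorial : ℝ) / ‖1 - ρ‖ ^ (j + 1)) := by gcongr
        _ = _ := by ring
    have h6 : 0 ≤ Cs * Cw := by positivity
    linarith
  · -- the size of c
    rw [hc, norm_mul, Complex.norm_exp]
    have e1 : (-ρ * M).re = -((1 + δ) * L / 2) := by
      rw [Complex.re_mul_ofReal, Complex.neg_re, hρre, hM]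
      ring
    rw [e1, mul_comm]
    refine mul_le_mul_of_nonneg_right (hc'n.trans ?_) (Real.exp_pos _).le
    have h6 : 0 ≤ Cs * Cw := by positivity
    linarith
  · -- near orthogonality
    intro n hn hnL
    have hn1 : (1 : ℝ) ≤ n := by exact_mod_cast hn
    have hn0 : (0 : ℝ) < n := by linarith
    have hnc : (n : ℂ) ≠ 0 := by exact_mod_cast hn0.ne'
    have hfrm : Measurable fun y : ℝ => ((Int.fract (y / (n : ℝ)) : ℝ) : ℂ) :=
      Complex.measurable_ofReal.comp (measurable_fract.comp (measurable_id.div_const _))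
    have hfrb : ∀ y : ℝ, ‖((Int.fract (y / (n : ℝ)) : ℝ) : ℂ)‖ ≤ 1 := by
      intro y
      rw [Complex.norm_real, Real.norm_eq_abs, abs_of_nonneg (Int.fract_nonneg _)]
      exact (Int.fract_lt_one _).le
    -- the interval (0,1]
    have hA : ∀ y ∈ Ioo (0 : ℝ) 1, ((Int.fract (y / (n : ℝ)) : ℝ) : ℂ) * KK b g p δ L κ c y = κ / n := by
      intro y hy
      unfold KK
      rw [if_neg (by linarith [hy.1]), if_pos hy.2]
      have hyc : (y : ℂ) ≠ 0 := by exact_mod_cast hy.1.ne'
      have hf' : Int.fract (y / (n : ℝ)) = y / n :=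
        Int.fract_eq_self.mpr ⟨by have := hy.1; positivity, (div_lt_one hn0).mpr (lt_of_lt_of_le hy.2 hn1)⟩
      rw [hf']
      push_cast
      field_simp
    have hAi : IntegrableOn (fun y => ((Int.fract (y / (n : ℝ)) : ℝ) : ℂ) * KK b g p δ L κ c y) (Ioc 0 1) := by
      rw [integrableOn_Ioc_iff_integrableOn_Ioo]
      refine IntegrableOn.congr_fun (f := fun _ => κ / n) ?_ (fun y hy => (hA y hy).symm) measurableSet_Ioo
      exact integrableOn_const (by simp)
    have hAv : ∫ y in Ioc (0 : ℝ) 1, ((Int.fract (y / (n : ℝ)) : ℝ) : ℂ) * KK b g p δ L κ c y = κ / n := by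
      rw [integral_Ioc_eq_integral_Ioo, setIntegral_congr_fun measurableSet_Ioo hA]
      simp
    -- the half line
    have hfi : IntegrableOn (fun y => ((Int.fract (y / (n : ℝ)) : ℝ) : ℂ) * f y) (Ioi 1) :=
      hfint.bdd_mul (c := 1) hfrm.aestronglyMeasurable (Eventually.of_forall hfrb)
    have hRi' : Integrable (fun y => ((Int.fract (y / (n : ℝ)) : ℝ) : ℂ) * R y) :=
      hRi.bdd_mul (c := 1) hfrm.aestronglyMeasurable (Eventually.of_forall hfrb)
    have hBe : ∀ y ∈ Ioi (1 : ℝ), ((Int.fract (y / (n : ℝ)) : ℝ) : ℂ) * KK b g p δ L κ c y =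
        ((Int.fract (y / (n : ℝ)) : ℝ) : ℂ) * f y + ((Int.fract (y / (n : ℝ)) : ℝ) : ℂ) * R y := by
      intro y hy
      rw [hKK y hy, mul_add]
    have hBi : IntegrableOn (fun y => ((Int.fract (y / (n : ℝ)) : ℝ) : ℂ) * KK b g p δ L κ c y) (Ioi 1) := by
      refine IntegrableOn.congr_fun (hfi.add hRi'.integrableOn) (fun y hy => (hBe y hy).symm) measurableSet_Ioi
    have hf2 : ∫ y in Ioi (1 : ℝ), ((Int.fract (y / (n : ℝ)) : ℝ) : ℂ) * f y = -(κ / n) := by
      have e : ∀ y : ℝ, ((Int.fract (y / (n : ℝ)) : ℝ) : ℂ) * f y = ∑ j ∈ p.support,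
          ((p.coeff j : ℝ) : ℂ) * (1 / (((1 + 2 * δ) * L : ℝ) : ℂ)) ^ j *
          (((Int.fract (y / (n : ℝ)) : ℝ) : ℂ) * (y : ℂ) ^ (-ρ - 1) * ((Real.log y : ℝ) : ℂ) ^ j) := by
        intro y
        simp only [hf]
        rw [Polynomial.eval_eq_sum, Polynomial.sum, Complex.ofReal_sum, Finset.mul_sum, Finset.mul_sum]
        refine Finset.sum_congr rfl fun j _ => ?_
        push_cast
        rw [div_pow, one_div, inv_pow, div_eq_mul_inv]
        ring
      have hjm : ∀ j ∈ p.support, j < mz ρ := by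
        intro j hj
        have h3 : (j : WithBot ℕ) ≤ p.degree := Polynomial.le_degree_of_ne_zero
          (Polynomial.mem_support_iff.mp hj)
        have h4 : (j : WithBot ℕ) < (mz ρ : WithBot ℕ) := lt_of_le_of_lt h3 hdeg
        exact_mod_cast h4
      have ho := fun j (hj : j ∈ p.support) => h1 ρ (by rw [hρre]; norm_num) (by rw [hρre]; norm_num)
        j n (hjm j hj) hn
      simp only [e]
      rw [integral_finsetSum _ fun j hj => ((ho j hj).1.const_mul _)]
      rw [hκ, Finset.sum_div, ← Finset.sum_neg_distrib]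
      refine Finset.sum_congr rfl fun j hj => ?_
      rw [integral_const_mul, (ho j hj).2]
      ring
    have hR2 : ∫ y in Ioi (1 : ℝ), ((Int.fract (y / (n : ℝ)) : ℝ) : ℂ) * R y =
        cexp (s * M) * (Y * ∫ t : ℝ, ((Int.fract (Y / n * t) : ℝ) : ℂ) * W t) := by
      rw [setIntegral_eq_integral_of_forall_compl_eq_zero (s := Ioi (1 : ℝ)) (fun y hy => by
        rw [hRsmall y (not_lt.mp hy), mul_zero])]
      have e : ∀ y : ℝ, ((Int.fract (y / (n : ℝ)) : ℝ) : ℂ) * R y = cexp (s * M) *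
          ((fun t : ℝ => ((Int.fract (Y / n * t) : ℝ) : ℂ) * W t) (y / Y)) := by
        intro y
        simp only [hR]
        have e5 : Y / n * (y / Y) = y / n := by field_simp
        rw [e5]
        ring
      simp only [e]
      rw [integral_const_mul, Measure.integral_comp_div (fun t : ℝ => ((Int.fract (Y / n * t) : ℝ) : ℂ) * W t) Y,
        abs_of_pos hY0, Complex.real_smul]
    rw [← Ioc_union_Ioi_eq_Ioi zero_le_one, setIntegral_union (Ioc_disjoint_Ioi le_rfl) measurableSet_Ioi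
      hAi hBi, hAv, setIntegral_congr_fun measurableSet_Ioi hBe, integral_add hfi hRi'.integrableOn, hf2,
      hR2, ← add_assoc, add_neg_cancel, zero_add, norm_mul, norm_mul, hfac, Complex.norm_real,
      Real.norm_eq_abs, abs_of_pos hY0]
    have h3 := hsaw W (Y / n) (by positivity) hWs (fun j _ => hWdi j) hW0
    have h4 : (Y / n)⁻¹ ^ J ≤ Real.exp (-(6 * L)) := by
      have h5 : (Y / n)⁻¹ ≤ Real.exp (-(δ * L)) := by
        rw [inv_div, div_le_iff₀ hY0, hY, ← Real.exp_add]
        refine hnL.trans (le_of_eq ?_)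
        congr 1
        rw [hM]
        ring
      calc (Y / n)⁻¹ ^ J ≤ Real.exp (-(δ * L)) ^ J := pow_le_pow_left₀ (by positivity) h5 J
        _ = Real.exp (J * (-(δ * L))) := (Real.exp_nat_mul _ _).symm
        _ ≤ Real.exp (-(6 * L)) := by
            refine Real.exp_le_exp.mpr ?_
            have h6 : 6 ≤ J * δ := (div_le_iff₀ hδ).mp hJ
            nlinarith
    calc Y ^ (-(3 / 2) : ℝ) * (Y * ‖∫ t : ℝ, ((Int.fract (Y / n * t) : ℝ) : ℂ) * W t‖)
        = (Y ^ (-(3 / 2) : ℝ) * Y) * ‖∫ t : ℝ, ((Int.fract (Y / n * t) : ℝ) : ℂ) * W t‖ := by ring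
      _ ≤ 1 * (Cs * (Y / n)⁻¹ ^ J * ∫ y : ℝ, ‖iteratedDeriv J W y‖) := by
          refine mul_le_mul ?_ h3 (norm_nonneg _) zero_le_one
          rw [← Real.rpow_add_one hY0.ne']
          exact Real.rpow_le_one_of_one_le_of_nonpos hY1.le (by norm_num)
      _ ≤ 1 * (Cs * Real.exp (-(6 * L)) * Cw) := by
          refine mul_le_mul_of_nonneg_left ?_ zero_le_one
          refine mul_le_mul (mul_le_mul_of_nonneg_left h4 hCs.le) hWn ?_ (by positivity)
          exact integral_nonneg fun t => norm_nonneg _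
      _ = Cs * Cw * Real.exp (-(6 * L)) := by ring
      _ ≤ (1 + Ck + Cp + CQ 0 * 4 + Cs * Cw) * Real.exp (-(6 * L)) := by
          refine mul_le_mul_of_nonneg_right ?_ (Real.exp_pos _).le
          linarith
  · -- the pairing with χ
    have hR0 : ∫ y in Ioi (1 : ℝ), R y = 0 := by
      rw [setIntegral_eq_integral_of_forall_compl_eq_zero (s := Ioi (1 : ℝ)) (f := R)
        (fun y hy => hRsmall y (not_lt.mp hy))]
      simp only [hR]
      rw [integral_const_mul, Measure.integral_comp_div W Y, hW0]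
      simp
    have hsplit : ∫ y in Ioi (1 : ℝ), KK b g p δ L κ c y = ∫ y in Ioi (1 : ℝ), f y := by
      rw [setIntegral_congr_fun measurableSet_Ioi (fun y hy => hKK y hy),
        integral_add hfint hRi.integrableOn, hR0, add_zero]
    have hfval : ∫ y in Ioi (1 : ℝ), f y = ∑ j ∈ Finset.range (p.natDegree + 1), ((p.coeff j : ℝ) : ℂ) *
        (1 / (((1 + 2 * δ) * L : ℝ) : ℂ)) ^ j * Jj j := by
      have e : ∀ y : ℝ, f y = ∑ j ∈ Finset.range (p.natDegree + 1), ((p.coeff j : ℝ) : ℂ) *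
          (1 / (((1 + 2 * δ) * L : ℝ) : ℂ)) ^ j * ((y : ℂ) ^ (-ρ - 1) * ((Real.log y : ℝ) : ℂ) ^ j) := by
        intro y
        simp only [hf]
        rw [Polynomial.eval_eq_sum_range, Complex.ofReal_sum, Finset.mul_sum]
        refine Finset.sum_congr rfl fun j _ => ?_
        push_cast
        rw [div_pow, one_div, inv_pow, div_eq_mul_inv]
        ring
      simp only [e]
      rw [integral_finsetSum _ fun j _ => ((pl_int hρre j).const_mul _)]
      refine Finset.sum_congr rfl fun j _ => ?_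
      rw [integral_const_mul]
    have hJ0 : Jj 0 = 1 / ρ := by
      simp only [hJj, pow_zero, mul_one]
      rw [integral_Ioi_cpow_of_lt (by
        rw [Complex.sub_re, Complex.neg_re, hρre, Complex.one_re]; norm_num) one_pos]
      rw [Complex.ofReal_one, Complex.one_cpow, sub_add_cancel, neg_div_neg_eq]
    have hp0 : p.coeff 0 = p.eval 0 := Polynomial.coeff_zero_eq_eval_zero p
    rw [hsplit, hfval, Finset.sum_range_succ', hJ0, pow_zero, mul_one, hp0]
    have e7 : ∀ z : ℂ, z + ((p.eval 0 : ℝ) : ℂ) * (1 / ρ) - ((p.eval 0 : ℝ) : ℂ) / ρ = z := fun z => by ring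
    rw [e7]
    have h8 : ‖∑ j ∈ Finset.range p.natDegree, ((p.coeff (j + 1) : ℝ) : ℂ) *
        (1 / (((1 + 2 * δ) * L : ℝ) : ℂ)) ^ (j + 1) * Jj (j + 1)‖ ≤ Cp / L := by
      refine (norm_sum_le _ _).trans ?_
      rw [hCp, Finset.sum_div]
      refine Finset.sum_le_sum fun j _ => ?_
      rw [norm_mul, norm_mul, Complex.norm_real, Real.norm_eq_abs, norm_pow, norm_div, norm_one,
        Complex.norm_real, Real.norm_eq_abs, abs_of_pos (mul_pos hd1 hL0)]
      have h9 : (1 / ((1 + 2 * δ) * L)) ^ (j + 1) ≤ 1 / L := by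
        have h10 : 1 / ((1 + 2 * δ) * L) ≤ 1 / L := by
          refine one_div_le_one_div_of_le hL0 ?_
          nlinarith
        have h11 : 1 / L ≤ 1 := by rw [div_le_one hL0]; exact hL
        calc (1 / ((1 + 2 * δ) * L)) ^ (j + 1) ≤ (1 / L) ^ (j + 1) :=
              pow_le_pow_left₀ (by positivity) h10 _
          _ = (1 / L) ^ j * (1 / L) := pow_succ _ _
          _ ≤ 1 * (1 / L) := mul_le_mul_of_nonneg_right (pow_le_one₀ (by positivity) h11) (by positivity)
          _ = 1 / L := one_mul _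
      calc |p.coeff (j + 1)| * (1 / ((1 + 2 * δ) * L)) ^ (j + 1) * ‖Jj (j + 1)‖
          ≤ |p.coeff (j + 1)| * (1 / L) * ‖Jj (j + 1)‖ := by gcongr
        _ = |p.coeff (j + 1)| * ‖Jj (j + 1)‖ / L := by ring
    refine h8.trans ?_
    refine div_le_div_of_nonneg_right ?_ hL0.le
    have h6 : 0 ≤ Cs * Cw := by positivity
    linarith

end

end Pool.Agent.Q153.BD
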