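import Pool.Agent.Q286.BD.Spec

set_option autoImplicit false

/-! Project BD (helper286), job B4a (helper153), part 1: derivatives of the cut power. -/

namespace Pool.Agent.Q153.BD

open Complex MeasureTheory Filter Topology Set
open Pool.Agent.Q286.BD

noncomputable section

/-- a polynomial times a smooth step -/
def HH (q : Polynomial ℝ) (δ w : ℝ) : ℝ := q.eval w * Real.smoothTransition (w / δ)

theorem poly_smooth (q : Polynomial ℝ) (n : ℕ) : ContDiff ℝ n (fun w : ℝ => q.eval w) := by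
  have h := Polynomial.contDiff_aeval (R := ℝ) (𝕜 := ℝ) q n
  simpa using h

theorem HH_smooth (q : Polynomial ℝ) (δ : ℝ) (n : ℕ) : ContDiff ℝ n (HH q δ) := by
  refine (poly_smooth q n).mul ?_
  have h : ContDiff ℝ ((n : ℕ∞) : WithTop ℕ∞) Real.smoothTransition := Real.smoothTransition.contDiff
  exact ContDiff.comp h (contDiff_id.div_const _)

theorem HH_zero (q : Polynomial ℝ) {δ : ℝ} (hδ : 0 < δ) {w : ℝ} (hw : w ≤ 0) : HH q δ w = 0 := by
  unfold HH
  rw [Real.smoothTransition.zero_of_nonpos (div_nonpos_of_nonpos_of_nonneg hw hδ.le), mul_zero]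

theorem poly_iter (q : Polynomial ℝ) (i : ℕ) : iteratedDeriv i (fun w : ℝ => q.eval w) =
    fun w => (Polynomial.derivative^[i] q).eval w := by
  induction i with
  | zero => simp
  | succ i ih =>
    rw [iteratedDeriv_succ, ih, Function.iterate_succ_apply']
    funext w
    exact Polynomial.deriv _

theorem HH_iter_large (q : Polynomial ℝ) {δ : ℝ} (hδ : 0 < δ) (i : ℕ) {w : ℝ} (hw : δ < w) :
    iteratedDeriv i (HH q δ) w = (Polynomial.derivative^[i] q).eval w := by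
  have h1 : HH q δ =ᶠ[𝓝 w] fun w : ℝ => q.eval w := by
    filter_upwards [Ioi_mem_nhds hw] with x hx
    unfold HH
    rw [Real.smoothTransition.one_of_one_le ((one_le_div hδ).mpr (mem_Ioi.mp hx).le), mul_one]
  rw [h1.iteratedDeriv_eq, poly_iter]

theorem HH_bd (q : Polynomial ℝ) {δ : ℝ} (hδ : 0 < δ) (i : ℕ) : ∃ C : ℝ, 0 ≤ C ∧ ∀ w : ℝ, 0 ≤ w →
    |iteratedDeriv i (HH q δ) w| ≤ C * Real.exp (w / 4) := by
  -- at infinity
  set r : Polynomial ℝ := (Polynomial.derivative^[i] q).comp (Polynomial.C 4 * Polynomial.X) with hr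
  have h1 := (Polynomial.tendsto_div_exp_atTop r).abs
  rw [abs_zero] at h1
  have h2 := (tendsto_order.mp h1).2 1 one_pos
  obtain ⟨W, hW⟩ := eventually_atTop.mp h2
  set W' : ℝ := max (4 * W) (δ + 1) with hW'
  have hcont : Continuous (iteratedDeriv i (HH q δ)) :=
    (HH_smooth q δ i).continuous_iteratedDeriv i le_rfl
  obtain ⟨M, hM⟩ := (isCompact_Icc (a := (0 : ℝ)) (b := W')).exists_bound_of_continuousOn
    hcont.continuousOn
  refine ⟨max M 1, le_trans zero_le_one (le_max_right _ _), fun w hw => ?_⟩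
  by_cases hwW : w ≤ W'
  · have h3 := hM w ⟨hw, hwW⟩
    rw [Real.norm_eq_abs] at h3
    calc |iteratedDeriv i (HH q δ) w| ≤ max M 1 * 1 := by
          rw [mul_one]; exact h3.trans (le_max_left _ _)
      _ ≤ max M 1 * Real.exp (w / 4) := by
          refine mul_le_mul_of_nonneg_left ?_ (le_trans zero_le_one (le_max_right _ _))
          exact Real.one_le_exp (by positivity)
  · push Not at hwW
    have h4 : δ < w := by
      have := le_max_right (4 * W) (δ + 1)
      linarith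
    have h5 : W ≤ w / 4 := by
      have := le_max_left (4 * W) (δ + 1)
      linarith
    have h6 := hW (w / 4) h5
    rw [HH_iter_large q hδ i h4]
    have h7 : r.eval (w / 4) = (Polynomial.derivative^[i] q).eval w := by
      rw [hr, Polynomial.eval_comp]
      simp only [Polynomial.eval_mul, Polynomial.eval_C, Polynomial.eval_X]
      congr 1
      ring
    rw [h7, abs_div, abs_of_pos (Real.exp_pos _), div_lt_one (Real.exp_pos _)] at h6
    calc |(Polynomial.derivative^[i] q).eval w| ≤ 1 * Real.exp (w / 4) := by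
          rw [one_mul]; exact h6.le
      _ ≤ max M 1 * Real.exp (w / 4) :=
          mul_le_mul_of_nonneg_right (le_max_right _ _) (Real.exp_pos _).le

/-- the cut power -/
def QQ (H : ℝ → ℝ) (s : ℂ) (L t : ℝ) : ℂ :=
  if t ≤ 1 then 0 else cexp (s * Real.log t) * ((H (Real.log t / L) : ℝ) : ℂ)

/-- its derivatives -/
def QF (H : ℝ → ℝ) (s : ℂ) (k : ℕ) (a : ℕ → ℂ) (L t : ℝ) : ℂ :=
  cexp ((s - k) * Real.log t) * ∑ i ∈ Finset.range (k + 1),
    a i * (1 / (L : ℂ)) ^ i * ((iteratedDeriv i H (Real.log t / L) : ℝ) : ℂ)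

theorem QQ_pos {H : ℝ → ℝ} (h0 : ∀ w ≤ 0, H w = 0) (s : ℂ) {L : ℝ} (hL : 0 < L) {t : ℝ} (ht : 0 < t) :
    QQ H s L t = cexp (s * Real.log t) * ((H (Real.log t / L) : ℝ) : ℂ) := by
  unfold QQ
  split_ifs with h
  · rw [h0 _ (div_nonpos_of_nonpos_of_nonneg (Real.log_nonpos ht.le h) hL.le)]
    simp
  · rfl

theorem QF_deriv {H : ℝ → ℝ} (hH : ∀ n : ℕ, ContDiff ℝ n H) (s : ℂ) (k : ℕ) (a : ℕ → ℂ) {L : ℝ}
    (hL : 0 < L) {t : ℝ} (ht : 0 < t) :
    HasDerivAt (QF H s k a L) (QF H s (k + 1) (fun i => (s - k) * (if i ≤ k then a i else 0) +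
      (if i = 0 then 0 else a (i - 1))) L t) t := by
  have hlog : HasDerivAt (fun t : ℝ => Real.log t) t⁻¹ t := Real.hasDerivAt_log ht.ne'
  have htc : (t : ℂ) ≠ 0 := by exact_mod_cast ht.ne'
  have hLc : (L : ℂ) ≠ 0 := by exact_mod_cast hL.ne'
  have h1 : HasDerivAt (fun t : ℝ => cexp ((s - k) * Real.log t))
      (cexp ((s - k) * Real.log t) * ((s - k) * ((t⁻¹ : ℝ) : ℂ))) t :=
    (hlog.ofReal_comp.const_mul (s - k)).cexp
  have h2 : ∀ i : ℕ, HasDerivAt (fun t : ℝ => ((iteratedDeriv i H (Real.log t / L) : ℝ) : ℂ))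
      (((iteratedDeriv (i + 1) H (Real.log t / L) * (t⁻¹ / L) : ℝ)) : ℂ) t := by
    intro i
    have hd : HasDerivAt (iteratedDeriv i H) (iteratedDeriv (i + 1) H (Real.log t / L))
        (Real.log t / L) := by
      rw [iteratedDeriv_succ]
      exact ((hH (i + 1)).differentiable_iteratedDeriv i
        (by exact_mod_cast Nat.lt_succ_self i)).differentiableAt.hasDerivAt
    exact (hd.comp t (hlog.div_const L)).ofReal_comp
  have h3 : HasDerivAt (fun t : ℝ => ∑ i ∈ Finset.range (k + 1),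
      a i * (1 / (L : ℂ)) ^ i * ((iteratedDeriv i H (Real.log t / L) : ℝ) : ℂ))
      (∑ i ∈ Finset.range (k + 1), a i * (1 / (L : ℂ)) ^ i *
        (((iteratedDeriv (i + 1) H (Real.log t / L) * (t⁻¹ / L) : ℝ)) : ℂ)) t :=
    HasDerivAt.fun_sum fun i _ => (h2 i).const_mul _
  have h4 := h1.mul h3
  refine h4.congr_deriv ?_
  unfold QF
  have e1 : cexp ((s - ((k + 1 : ℕ) : ℂ)) * Real.log t) = cexp ((s - k) * Real.log t) * (t : ℂ)⁻¹ := by
    have : (t : ℂ)⁻¹ = cexp (-(Real.log t : ℂ)) := by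
      rw [← Complex.ofReal_neg, ← Complex.ofReal_exp, Real.exp_neg, Real.exp_log ht]
      push_cast
      rfl
    rw [this, ← Complex.exp_add]
    congr 1
    push_cast
    ring
  rw [e1]
  set E := cexp ((s - k) * Real.log t) with hE
  set D : ℕ → ℂ := fun i => ((iteratedDeriv i H (Real.log t / L) : ℝ) : ℂ) with hD
  have e2 : ∑ i ∈ Finset.range (k + 1 + 1), ((s - k) * (if i ≤ k then a i else 0) +
      (if i = 0 then 0 else a (i - 1))) * (1 / (L : ℂ)) ^ i * D i =
      (s - k) * ∑ i ∈ Finset.range (k + 1), a i * (1 / (L : ℂ)) ^ i * D i +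
      ∑ i ∈ Finset.range (k + 1), a i * (1 / (L : ℂ)) ^ (i + 1) * D (i + 1) := by
    have e3 : ∀ i ∈ Finset.range (k + 1 + 1), ((s - k) * (if i ≤ k then a i else 0) +
      (if i = 0 then 0 else a (i - 1))) * (1 / (L : ℂ)) ^ i * D i =
      (s - k) * ((if i ≤ k then a i else 0) * (1 / (L : ℂ)) ^ i * D i) +
      (if i = 0 then 0 else a (i - 1)) * (1 / (L : ℂ)) ^ i * D i := fun i _ => by ring
    rw [Finset.sum_congr rfl e3, Finset.sum_add_distrib, ← Finset.mul_sum]
    congr 1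
    · congr 1
      rw [Finset.sum_range_succ, if_neg (by omega), zero_mul, zero_mul, add_zero]
      refine Finset.sum_congr rfl fun i hi => ?_
      rw [if_pos (by have := Finset.mem_range.mp hi; omega)]
    · rw [Finset.sum_range_succ', if_pos rfl, zero_mul, zero_mul, add_zero]
      refine Finset.sum_congr rfl fun i _ => ?_
      rw [if_neg (Nat.succ_ne_zero i), Nat.add_sub_cancel]
  change _ = E * (t : ℂ)⁻¹ * ∑ i ∈ Finset.range (k + 1 + 1), ((s - k) * (if i ≤ k then a i else 0) +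
      (if i = 0 then 0 else a (i - 1))) * (1 / (L : ℂ)) ^ i * D i
  rw [e2]
  have e4 : ∑ i ∈ Finset.range (k + 1), a i * (1 / (L : ℂ)) ^ i *
        (((iteratedDeriv (i + 1) H (Real.log t / L) * (t⁻¹ / L) : ℝ)) : ℂ) =
      (t : ℂ)⁻¹ * ∑ i ∈ Finset.range (k + 1), a i * (1 / (L : ℂ)) ^ (i + 1) * D (i + 1) := by
    rw [Finset.mul_sum]
    refine Finset.sum_congr rfl fun i _ => ?_
    simp only [hD]
    push_cast
    rw [pow_succ]
    ring
  rw [e4]
  push_cast
  ring

theorem QQ_iter {H : ℝ → ℝ} (hH : ∀ n : ℕ, ContDiff ℝ n H) (h0 : ∀ w ≤ 0, H w = 0) (s : ℂ) (k : ℕ) :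
    ∃ a : ℕ → ℂ, ∀ L : ℝ, 0 < L → ∀ t : ℝ, 0 < t → iteratedDeriv k (QQ H s L) t = QF H s k a L t := by
  induction k with
  | zero =>
    refine ⟨fun _ => 1, fun L hL t ht => ?_⟩
    rw [iteratedDeriv_zero, QQ_pos h0 s hL ht]
    unfold QF
    simp
  | succ k ih =>
    obtain ⟨a, ha⟩ := ih
    refine ⟨fun i => (s - k) * (if i ≤ k then a i else 0) + (if i = 0 then 0 else a (i - 1)),
      fun L hL t ht => ?_⟩
    rw [iteratedDeriv_succ]
    have h1 : iteratedDeriv k (QQ H s L) =ᶠ[𝓝 t] QF H s k a L := by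
      filter_upwards [Ioi_mem_nhds ht] with x hx
      exact ha L hL x hx
    rw [h1.deriv_eq]
    exact (QF_deriv hH s k a hL ht).deriv

theorem QQ_iter_small {H : ℝ → ℝ} (s : ℂ) (k : ℕ) (L : ℝ) {t : ℝ} (ht : t < 1) :
    iteratedDeriv k (QQ H s L) t = 0 := by
  have h1 : QQ H s L =ᶠ[𝓝 t] fun _ => 0 := by
    filter_upwards [Iio_mem_nhds ht] with x hx
    unfold QQ
    rw [if_pos (mem_Iio.mp hx).le]
  rw [h1.iteratedDeriv_eq]
  simp

theorem QQ_smooth {H : ℝ → ℝ} (hH : ∀ n : ℕ, ContDiff ℝ n H) (h0 : ∀ w ≤ 0, H w = 0) (s : ℂ) {L : ℝ}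
    (hL : 0 < L) (n : ℕ) : ContDiff ℝ n (QQ H s L) := by
  rw [contDiff_iff_contDiffAt]
  intro t
  by_cases ht : t < 1
  · have h1 : QQ H s L =ᶠ[𝓝 t] fun _ => 0 := by
      filter_upwards [Iio_mem_nhds ht] with x hx
      unfold QQ
      rw [if_pos (mem_Iio.mp hx).le]
    exact contDiffAt_const.congr_of_eventuallyEq h1
  · have ht0 : 0 < t := by linarith
    have h1 : QQ H s L =ᶠ[𝓝 t] fun t => cexp (s * Real.log t) * ((H (Real.log t / L) : ℝ) : ℂ) := by
      filter_upwards [Ioi_mem_nhds ht0] with x hx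
      exact QQ_pos h0 s hL hx
    refine ContDiffAt.congr_of_eventuallyEq ?_ h1
    have hlog : ContDiffAt ℝ n Real.log t := Real.contDiffAt_log.mpr ht0.ne'
    have h2 : ContDiffAt ℝ n (fun t : ℝ => ((Real.log t : ℝ) : ℂ)) t :=
      (Complex.ofRealCLM.contDiff.contDiffAt).comp t hlog
    have h3 : ContDiffAt ℝ n (fun t : ℝ => ((H (Real.log t / L) : ℝ) : ℂ)) t :=
      (Complex.ofRealCLM.contDiff.contDiffAt).comp t
        (((hH n).contDiffAt).comp t (hlog.div_const L))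
    exact ((contDiffAt_const.mul h2).cexp).mul h3

theorem QQ_bd {H : ℝ → ℝ} (hH : ∀ n : ℕ, ContDiff ℝ n H) (h0 : ∀ w ≤ 0, H w = 0)
    (hb : ∀ i : ℕ, ∃ C : ℝ, 0 ≤ C ∧ ∀ w : ℝ, 0 ≤ w → |iteratedDeriv i H w| ≤ C * Real.exp (w / 4))
    {s : ℂ} (hs : s.re = -(3 / 2)) (k : ℕ) : ∃ C : ℝ, 0 ≤ C ∧ ∀ L : ℝ, 1 ≤ L → ∀ t : ℝ,
    ‖iteratedDeriv k (QQ H s L) t‖ ≤ (Ici (1 : ℝ)).indicator (fun t => C * t ^ (-(5 / 4) : ℝ)) t := by
  obtain ⟨a, ha⟩ := QQ_iter hH h0 s k
  choose C hC0 hC using hb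
  refine ⟨∑ i ∈ Finset.range (k + 1), ‖a i‖ * C i,
    Finset.sum_nonneg fun i _ => mul_nonneg (norm_nonneg _) (hC0 i), fun L hL t => ?_⟩
  by_cases ht : t < 1
  · rw [QQ_iter_small s k L ht, norm_zero,
      indicator_of_notMem (by rw [mem_Ici, not_le]; exact ht)]
  · push Not at ht
    have ht0 : 0 < t := by linarith
    have hL0 : 0 < L := by linarith
    have hlog : 0 ≤ Real.log t := Real.log_nonneg ht
    rw [indicator_of_mem (mem_Ici.mpr ht), ha L hL0 t ht0]
    unfold QF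
    rw [norm_mul, Complex.norm_exp]
    have e1 : ((s - k) * Real.log t).re = (-(3 / 2) - k) * Real.log t := by
      rw [Complex.re_mul_ofReal, Complex.sub_re, hs, Complex.natCast_re]
    rw [e1]
    have h1 : Real.exp ((-(3 / 2) - k) * Real.log t) ≤ t ^ (-(3 / 2) : ℝ) := by
      rw [Real.rpow_def_of_pos ht0]
      refine Real.exp_le_exp.mpr ?_
      have : 0 ≤ (k : ℝ) * Real.log t := mul_nonneg (Nat.cast_nonneg k) hlog
      linarith
    have h2 : ‖∑ i ∈ Finset.range (k + 1),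
        a i * (1 / (L : ℂ)) ^ i * ((iteratedDeriv i H (Real.log t / L) : ℝ) : ℂ)‖ ≤
        (∑ i ∈ Finset.range (k + 1), ‖a i‖ * C i) * t ^ (1 / 4 : ℝ) := by
      refine (norm_sum_le _ _).trans ?_
      rw [Finset.sum_mul]
      refine Finset.sum_le_sum fun i _ => ?_
      rw [norm_mul, norm_mul, norm_pow, norm_div, norm_one, Complex.norm_real, Complex.norm_real,
        Real.norm_eq_abs, Real.norm_eq_abs, abs_of_pos hL0]
      have h3 : (1 / L) ^ i ≤ 1 := pow_le_one₀ (by positivity) (by rw [div_le_one hL0]; exact hL)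
      have h4 := hC i (Real.log t / L) (by positivity)
      have h5 : Real.exp (Real.log t / L / 4) ≤ t ^ (1 / 4 : ℝ) := by
        rw [Real.rpow_def_of_pos ht0]
        refine Real.exp_le_exp.mpr ?_
        have : Real.log t / L ≤ Real.log t := div_le_self hlog hL
        linarith
      calc ‖a i‖ * (1 / L) ^ i * |iteratedDeriv i H (Real.log t / L)|
          ≤ ‖a i‖ * 1 * (C i * Real.exp (Real.log t / L / 4)) := by
            refine mul_le_mul (mul_le_mul_of_nonneg_left h3 (norm_nonneg _)) h4 (abs_nonneg _) ?_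
            positivity
        _ ≤ ‖a i‖ * 1 * (C i * t ^ (1 / 4 : ℝ)) := by
            refine mul_le_mul_of_nonneg_left (mul_le_mul_of_nonneg_left h5 (hC0 i)) ?_
            positivity
        _ = ‖a i‖ * C i * t ^ (1 / 4 : ℝ) := by ring
    calc Real.exp ((-(3 / 2) - k) * Real.log t) * _
        ≤ t ^ (-(3 / 2) : ℝ) * ((∑ i ∈ Finset.range (k + 1), ‖a i‖ * C i) * t ^ (1 / 4 : ℝ)) :=
          mul_le_mul h1 h2 (norm_nonneg _) (by positivity)
      _ = (∑ i ∈ Finset.range (k + 1), ‖a i‖ * C i) * (t ^ (-(3 / 2) : ℝ) * t ^ (1 / 4 : ℝ)) := by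
          ring
      _ = (∑ i ∈ Finset.range (k + 1), ‖a i‖ * C i) * t ^ (-(5 / 4) : ℝ) := by
          rw [← Real.rpow_add ht0]
          norm_num

end

end Pool.Agent.Q153.BD
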